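import Mathlib
import Pool.Agent.KS6_87.BR.Defs
import Pool.Agent.KS6_87.BR.Run
import Pool.Agent.KS6_87.BR.Equal
import Pool.Agent.KS6_87.BR.Pad

/-!
# Best-response paths in budgeted sharing games: two cost values give exponential length

The game (`Game`, `Feasible`, `load`, `payoff`, `BestResponseMove`, `IsPath`) is defined in
`Pool/Agent/KS6_87/BR/Defs.lean`.
-/

set_option autoImplicit false

namespace Pool.Agent.Results.MP_2a1065_lc.TwoCosts

open Finset Pool.Agent.KS6_87.BR

/-- All costs are `a` or `b`, all budgets are `max b (3 a)`, every agent is interested in at most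
four sites, and at most four agents are interested in any site. -/
def Special {U H : Type} [Fintype U] [DecidableEq U] [DecidableEq H] (a b : ℝ)
    (G : Game U H) : Prop :=
  (∀ i, G.cost i = a ∨ G.cost i = b) ∧ (∀ j, G.budget j = max b (3 * a)) ∧
    (∀ j, #(G.interested j) ≤ 4) ∧ ∀ i, #{j | i ∈ G.interested j} ≤ 4

theorem exists_game (a b : ℝ) (ha : 0 < a) (hab : 2 * a < b) (n m : ℕ) (hnm : 2 * n ≤ m) :
    ∃ (U H : Type) (_ : Fintype U) (_ : DecidableEq U) (_ : Fintype H) (_ : DecidableEq H)
      (G : Game U H) (L : ℕ) (path : ℕ → U → Finset H),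
      Fintype.card U = n ∧ Fintype.card H = m ∧ Special a b G ∧
      2 * L + 3 = 3 ^ (n / 3 + 1) ∧ IsPath G L path := by
  have hb : 0 < b := by linarith
  obtain ⟨path, hpath⟩ := chain_path n ha hb hab
  refine ⟨Fin n, (Fin n × Bool) ⊕ Fin (m - 2 * n), inferInstance, inferInstance, inferInstance,
    inferInstance, pad (chain n a b ha hb) (Fin (m - 2 * n)) a ha, len (n / 3), _,
    Fintype.card_fin n, ?_, ⟨?_, ?_, ?_, ?_⟩, len_eq _, hpath.lift ha⟩
  · simp only [Fintype.card_sum, Fintype.card_prod, Fintype.card_fin, Fintype.card_bool]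
    omega
  · rintro (⟨i, c⟩ | i)
    · cases c
      · exact Or.inr rfl
      · exact Or.inl rfl
    · exact Or.inl rfl
  · intro j
    rfl
  · intro j
    show #((((chain n a b ha hb).interested j)).map Function.Embedding.inl) ≤ 4
    rw [Finset.card_map]
    exact card_interested n ha hb j
  · rintro (i | i)
    · have h : #{j | (Sum.inl i : (Fin n × Bool) ⊕ Fin (m - 2 * n)) ∈
          (pad (chain n a b ha hb) (Fin (m - 2 * n)) a ha).interested j} =
          #{j | i ∈ (chain n a b ha hb).interested j} := by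
        congr 1
        ext j
        simp [pad]
      rw [h]
      exact card_fans n ha hb i
    · have h : #{j | (Sum.inr i : (Fin n × Bool) ⊕ Fin (m - 2 * n)) ∈
          (pad (chain n a b ha hb) (Fin (m - 2 * n)) a ha).interested j} = 0 := by
        rw [Finset.card_eq_zero, Finset.filter_eq_empty_iff]
        intro j _ hj
        simp [pad] at hj
      rw [h]
      exact Nat.zero_le _

theorem growth (k : ℕ) (hk : 1 ≤ k) : 2 ^ (9 * k + 8) ≤ (3 ^ k) ^ 11 := by
  induction k, hk using Nat.le_induction with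
  | base => norm_num
  | succ k _ ih =>
    calc 2 ^ (9 * (k + 1) + 8) = 512 * 2 ^ (9 * k + 8) := by
          rw [show 9 * (k + 1) + 8 = 9 + (9 * k + 8) by ring, pow_add]
          norm_num
      _ ≤ 177147 * (3 ^ k) ^ 11 := Nat.mul_le_mul (by norm_num) ih
      _ = (3 ^ (k + 1)) ^ 11 := by
          rw [pow_succ 3 k, mul_pow]
          norm_num
          ring

theorem rpow_le (N k : ℕ) (hk : 1 ≤ k) (hN : N ≤ 9 * k + 8) :
    (2 : ℝ) ^ ((N : ℝ) / 11) ≤ 3 ^ k := by
  have h1 : ((2 : ℝ) ^ ((N : ℝ) / 11)) ^ 11 ≤ (3 ^ k) ^ 11 := by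
    rw [← Real.rpow_natCast ((2 : ℝ) ^ ((N : ℝ) / 11)) 11, ← Real.rpow_mul (by norm_num),
      show (N : ℝ) / 11 * ((11 : ℕ) : ℝ) = (N : ℝ) by push_cast; ring, Real.rpow_natCast]
    have h2 : 2 ^ N ≤ (3 ^ k) ^ 11 :=
      (Nat.pow_le_pow_right (by norm_num) hN).trans (growth k hk)
    exact_mod_cast h2
  exact (pow_le_pow_iff_left₀ (by positivity) (by positivity) (by norm_num)).1 h1

/-- **Exponentially long best-response paths with two cost values; polynomial length with one.**
(1) Let `0 < a` and `2 a < b`. For all `n` and all `m ≥ 2 n` there is a budgeted sharing game with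
`n` agents and `m` sites in which every site costs `a` or `b`, all budgets are `max b (3 a)`, every
agent is interested in at most four sites, every site interests at most four agents, and which has
a best-response path with exactly `(3 ^ (⌊n / 3⌋ + 1) - 3) / 2` moves.
(2) In particular for every `N ≥ 9` there is such a game with `n + m = N` and a best-response path
with at least `2 ^ (N / 11)` moves.
(3) If all costs are equal, every best-response path has at most `(n m) ^ 2` moves. -/
theorem result :
    (∀ a b : ℝ, 0 < a → 2 * a < b → ∀ n m : ℕ, 2 * n ≤ m →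
      ∃ (U H : Type) (_ : Fintype U) (_ : DecidableEq U) (_ : Fintype H) (_ : DecidableEq H)
        (G : Game U H) (L : ℕ) (path : ℕ → U → Finset H),
        Fintype.card U = n ∧ Fintype.card H = m ∧ Special a b G ∧
        2 * L + 3 = 3 ^ (n / 3 + 1) ∧ IsPath G L path) ∧
    (∀ a b : ℝ, 0 < a → 2 * a < b → ∀ N : ℕ, 9 ≤ N →
      ∃ (U H : Type) (_ : Fintype U) (_ : DecidableEq U) (_ : Fintype H) (_ : DecidableEq H)
        (G : Game U H) (L : ℕ) (path : ℕ → U → Finset H),
        Fintype.card U + Fintype.card H = N ∧ Special a b G ∧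
        (2 : ℝ) ^ ((N : ℝ) / 11) ≤ L ∧ IsPath G L path) ∧
    (∀ (U H : Type) [Fintype U] [DecidableEq U] [Fintype H] [DecidableEq H] (G : Game U H)
      (L : ℕ) (path : ℕ → U → Finset H), (∀ i i', G.cost i = G.cost i') → IsPath G L path →
      L ≤ (Fintype.card U * Fintype.card H) ^ 2) := by
  refine ⟨exists_game, ?_, ?_⟩
  · intro a b ha hab N hN
    obtain ⟨U, H, i1, i2, i3, i4, G, L, path, h1, h2, h3, h4, h5⟩ :=
      exists_game a b ha hab (N / 3) (N - N / 3) (by omega)
    refine ⟨U, H, i1, i2, i3, i4, G, L, path, by omega, h3, ?_, h5⟩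
    have hk : 1 ≤ N / 3 / 3 := by omega
    have h6 := rpow_le N (N / 3 / 3) hk (by omega)
    refine h6.trans ?_
    have h7 : 3 ^ 1 ≤ 3 ^ (N / 3 / 3) := Nat.pow_le_pow_right (by norm_num) hk
    rw [pow_succ] at h4
    have h8 : 3 ^ (N / 3 / 3) ≤ L := by omega
    exact_mod_cast h8
  · intro U H _ _ _ _ G L path hc hp
    rcases isEmpty_or_nonempty H with hH | ⟨⟨i⟩⟩
    · exact equal_costs (c := 0) (fun i => (hH.false i).elim) hp
    · exact equal_costs (fun i' => hc i' i) hp

end Pool.Agent.Results.MP_2a1065_lc.TwoCosts
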